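import Mathlib

/-! # Admissible coloured partitions and the product side, as formal power series

Definitions used in the statement of the product formula for the coloured partitions of type
D_{n+1}^{(2)}. -/

namespace Pool.Agent.Lib.H84I

open PowerSeries
open scoped PowerSeries.WithPiTopology

/-- `l` is a coloured partition for rank `n`: a finite multiset of parts `(size, colour)` with
size at least `1`, colour in `1, ..., 2n - 1` and colour + size odd. -/
def pfColoured (n : ℕ) (l : Multiset (ℕ × ℕ)) : Prop :=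
  ∀ p ∈ l, 1 ≤ p.1 ∧ 1 ≤ p.2 ∧ p.2 ≤ 2 * n - 1 ∧ Odd (p.2 + p.1)

/-- the size of a coloured partition: the sum of the sizes of its parts -/
def pfWeight (l : Multiset (ℕ × ℕ)) : ℕ := (l.map Prod.fst).sum

/-- the frequency of the part of size `i` and colour `c`, extended by the boundary values: at
`i = 0` it is `k 0` for colour `1` plus `k n` for colour `2n - 1` (and `0` for all other colours),
at `i = -1` it is `k (c / 2)` (on a path, `i = -1` occurs only for even `c`) -/
def pfFreq (n : ℕ) (k : ℕ → ℕ) (l : Multiset (ℕ × ℕ)) (i : ℤ) (c : ℕ) : ℕ :=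
  if 1 ≤ i then l.count (i.toNat, c)
  else if i = 0 then (if c = 1 then k 0 else 0) + (if c = 2 * n - 1 then k n else 0)
  else k (c / 2)

/-- a path: integers `p 1, ..., p (2n - 1)`, all at least `-1`, with `p c + c` odd and
neighbouring entries at distance one -/
def pfPath (n : ℕ) (p : ℕ → ℤ) : Prop :=
  (∀ c : ℕ, 1 ≤ c → c ≤ 2 * n - 1 → -1 ≤ p c ∧ Odd (p c + (c : ℤ))) ∧
  (∀ r : ℕ, 1 ≤ r → r < 2 * n - 1 → |p r - p (r + 1)| = 1)

/-- `l` is an admissible coloured partition for the levels `k 0, ..., k n`: the weight of every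
path is at most `k 0 + ... + k n` -/
def pfAdmissible (n : ℕ) (k : ℕ → ℕ) (l : Multiset (ℕ × ℕ)) : Prop :=
  pfColoured n l ∧ ∀ p : ℕ → ℤ, pfPath n p →
    ∑ c ∈ Finset.Icc 1 (2 * n - 1), pfFreq n k l (p c) c ≤ ∑ t ∈ Finset.range (n + 1), k t

/-- the generating function of the admissible coloured partitions, in `ℤ⟦X⟧` -/
noncomputable def pfGen (n : ℕ) (k : ℕ → ℕ) : PowerSeries ℤ :=
  PowerSeries.mk fun N => (({l | pfAdmissible n k l ∧ pfWeight l = N} :
    Set (Multiset (ℕ × ℕ))).ncard : ℤ)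

/-- the infinite product over `j ≥ 0` of `1 - X ^ (a + b * j)`, in `ℤ⟦X⟧` -/
noncomputable def pfPoch (a b : ℕ) : PowerSeries ℤ := ∏' j : ℕ, (1 - X ^ (a + b * j))

/-- the theta product `θ(X ^ a; X ^ M)`, for `0 < a < M` -/
noncomputable def pfTheta (a M : ℕ) : PowerSeries ℤ := pfPoch a M * pfPoch (M - a) M

/-- `k i + ... + k n` -/
def pfLam (n : ℕ) (k : ℕ → ℕ) (i : ℕ) : ℕ := ∑ t ∈ Finset.Icc i n, k t

/-- the modulus `2 (k 0 + ... + k n) + 2 n` -/
def pfMod (n : ℕ) (k : ℕ → ℕ) : ℕ := 2 * (∑ t ∈ Finset.range (n + 1), k t) + 2 * n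

end Pool.Agent.Lib.H84I
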