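import Pool.Agent.Lib.H84I.PFDefs
import Pool.Agent.Lib.Primc.TargetA

/-! # Admissible coloured partitions are the admissible arrays of the frozen statement -/

namespace Pool.Agent.Lib.H84I

open Finset Pool.Agent.Lib.Primc

/-- the array of multiplicities of a coloured partition -/
def pfArr (l : Multiset (ℕ × ℕ)) : ℕ → ℕ → ℕ := fun i c => l.count (i, c)

theorem pfArr_injective : Function.Injective pfArr := by
  intro l m h
  ext ⟨i, c⟩
  exact congrFun (congrFun h i) c

theorem pfWeight_eq (n N : ℕ) (l : Multiset (ℕ × ℕ))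
    (h : ∀ p ∈ l, p.1 ≤ N ∧ 1 ≤ p.2 ∧ p.2 ≤ 2 * n - 1) :
    pfWeight l = ∑ i ∈ range (N + 1), ∑ c ∈ Icc 1 (2 * n - 1), i * pfArr l i c := by
  unfold pfWeight
  rw [Finset.sum_multiset_map_count, ← Finset.sum_product']
  have h1 : ∑ p ∈ range (N + 1) ×ˢ Icc 1 (2 * n - 1), p.1 * pfArr l p.1 p.2
      = ∑ p ∈ l.toFinset, l.count p • p.1 := by
    symm
    have h2 : ∀ p ∈ l.toFinset, l.count p • p.1 = p.1 * pfArr l p.1 p.2 := by
      intro p _
      rw [smul_eq_mul, mul_comm]
      rfl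
    rw [Finset.sum_congr rfl h2]
    apply Finset.sum_subset
    · intro p hp
      have h3 := h p (Multiset.mem_toFinset.mp hp)
      rw [Finset.mem_product, Finset.mem_range, Finset.mem_Icc]
      omega
    · intro p _ hp
      have h3 : l.count p = 0 := by
        rw [Multiset.count_eq_zero]
        intro h4
        exact hp (Multiset.mem_toFinset.mpr h4)
      have h4 : pfArr l p.1 p.2 = 0 := h3
      rw [h4, mul_zero]
  exact h1.symm

theorem pf_freq_eq (n : ℕ) (k : ℕ → ℕ) (l : Multiset (ℕ × ℕ)) (p : ℕ → ℤ) (c : ℕ)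
    (hc1 : 1 ≤ c) (hc2 : c ≤ 2 * n - 1) (hp : -1 ≤ p c ∧ Odd (p c + (c : ℤ))) :
    pfFreq n k l (p c) c = (if 1 ≤ p c then pfArr l (p c).toNat c
               else if p c = 0 then (if c = 1 then k 0 else 0) + (if c = 2*n-1 then k n else 0)
               else if Even c ∧ 2 ≤ c ∧ c ≤ 2*n-2 then k (c/2) else 0) := by
  unfold pfFreq
  by_cases h1 : 1 ≤ p c
  · rw [if_pos h1, if_pos h1]; rfl
  · rw [if_neg h1, if_neg h1]
    by_cases h2 : p c = 0
    · rw [if_pos h2, if_pos h2]
    · rw [if_neg h2, if_neg h2]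
      have h3 : p c = -1 := by have := hp.1; omega
      obtain ⟨r, hr⟩ := hp.2
      rw [h3] at hr
      rw [if_pos]
      refine ⟨⟨(r + 1).toNat, by omega⟩, by omega, by omega⟩

theorem pf_image (n : ℕ) (k : ℕ → ℕ) (N : ℕ) :
    pfArr '' {l | pfAdmissible n k l ∧ pfWeight l = N} = arrays n k N := by
  ext g
  constructor
  · rintro ⟨l, ⟨⟨hcol, hpath⟩, hw⟩, rfl⟩
    have hN : ∀ p ∈ l, p.1 ≤ N := by
      intro p hp
      rw [← hw]
      exact Multiset.le_sum_of_mem (Multiset.mem_map_of_mem Prod.fst hp)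
    refine ⟨?_, ?_, ?_⟩
    · intro i c hic
      have hmem : (i, c) ∈ l := Multiset.count_ne_zero.mp hic
      have h1 := hcol _ hmem
      exact ⟨h1.1, hN _ hmem, h1.2.1, h1.2.2.1, h1.2.2.2⟩
    · rw [← pfWeight_eq n N l (fun p hp => ⟨hN p hp, (hcol p hp).2.1, (hcol p hp).2.2.1⟩)]
      exact hw
    · intro p h1 h2
      have hp : pfPath n p := by
        refine ⟨fun c hc1 hc2 => h1 c (Finset.mem_Icc.mpr ⟨hc1, hc2⟩), fun r hr1 hr2 =>
          h2 r (Finset.mem_Icc.mpr ⟨hr1, by omega⟩)⟩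
      refine le_trans (le_of_eq ?_) (hpath p hp)
      apply Finset.sum_congr rfl
      intro c hc
      rw [Finset.mem_Icc] at hc
      exact (pf_freq_eq n k l p c hc.1 hc.2 (hp.1 c hc.1 hc.2)).symm
  · rintro ⟨h1, h2, h3⟩
    set l : Multiset (ℕ × ℕ) := ∑ x ∈ range (N + 1) ×ˢ Icc 1 (2 * n - 1),
      Multiset.replicate (g x.1 x.2) x with hl
    have hcount : ∀ y : ℕ × ℕ, l.count y = g y.1 y.2 := by
      intro y
      rw [hl, Multiset.count_sum']
      have h4 : ∀ x ∈ range (N + 1) ×ˢ Icc 1 (2 * n - 1),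
          Multiset.count y (Multiset.replicate (g x.1 x.2) x) = if x = y then g x.1 x.2 else 0 := by
        intro x _
        rw [Multiset.count_replicate]
      rw [Finset.sum_congr rfl h4, Finset.sum_ite_eq']
      split_ifs with h5
      · rfl
      · by_contra h6
        apply h5
        have h7 := h1 y.1 y.2 (fun h => h6 h.symm)
        rw [Finset.mem_product, Finset.mem_range, Finset.mem_Icc]
        omega
    have harr : pfArr l = g := by
      funext i c
      exact hcount (i, c)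
    have hmem : ∀ p ∈ l, 1 ≤ p.1 ∧ p.1 ≤ N ∧ 1 ≤ p.2 ∧ p.2 ≤ 2 * n - 1 ∧ Odd (p.2 + p.1) := by
      intro p hp
      apply h1 p.1 p.2
      rw [← hcount p]
      exact Multiset.count_ne_zero.mpr hp
    refine ⟨l, ⟨⟨?_, ?_⟩, ?_⟩, harr⟩
    · intro p hp
      have h4 := hmem p hp
      exact ⟨h4.1, h4.2.2.1, h4.2.2.2.1, h4.2.2.2.2⟩
    · intro p hp
      have h4 := h3 p (fun c hc => hp.1 c (Finset.mem_Icc.mp hc).1 (Finset.mem_Icc.mp hc).2)
        (fun r hr => hp.2 r (Finset.mem_Icc.mp hr).1 (by have := (Finset.mem_Icc.mp hr); omega))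
      refine le_trans (le_of_eq ?_) h4
      apply Finset.sum_congr rfl
      intro c hc
      rw [Finset.mem_Icc] at hc
      rw [pf_freq_eq n k l p c hc.1 hc.2 (hp.1 c hc.1 hc.2), harr]
    · rw [pfWeight_eq n N l (fun p hp => ⟨(hmem p hp).2.1, (hmem p hp).2.2.1,
        (hmem p hp).2.2.2.1⟩), harr]
      exact h2

theorem pf_ncard (n : ℕ) (k : ℕ → ℕ) (N : ℕ) :
    ({l | pfAdmissible n k l ∧ pfWeight l = N} : Set (Multiset (ℕ × ℕ))).ncard =
      (arrays n k N).ncard := by
  rw [← pf_image n k N, Set.ncard_image_of_injective _ pfArr_injective]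

theorem pf_finite (n : ℕ) (k : ℕ → ℕ) (N : ℕ) :
    ({l | pfAdmissible n k l ∧ pfWeight l = N} : Set (Multiset (ℕ × ℕ))).Finite := by
  apply (Set.finite_Iic (N • (range (N + 1) ×ˢ Icc 1 (2 * n - 1)).val)).subset
  rintro l ⟨⟨hcol, _⟩, hw⟩
  rw [Set.mem_Iic, Multiset.le_iff_count]
  intro p
  rw [Multiset.count_nsmul]
  by_cases hp : p ∈ l
  · have h1 : p.1 ≤ N := by
      rw [← hw]
      exact Multiset.le_sum_of_mem (Multiset.mem_map_of_mem Prod.fst hp)
    have h2 : p ∈ (range (N + 1) ×ˢ Icc 1 (2 * n - 1)).val := by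
      rw [Finset.mem_val, Finset.mem_product, Finset.mem_range, Finset.mem_Icc]
      have := hcol p hp
      omega
    have h3 : Multiset.count p (range (N + 1) ×ˢ Icc 1 (2 * n - 1)).val = 1 :=
      Multiset.count_eq_one_of_mem (Finset.nodup _) h2
    rw [h3, mul_one]
    have h4 : l.card ≤ N := by
      rw [← hw]
      unfold pfWeight
      have h5 : ∀ x ∈ l.map Prod.fst, 1 ≤ x := by
        intro x hx
        obtain ⟨p', hp', rfl⟩ := Multiset.mem_map.mp hx
        exact (hcol p' hp').1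
      have h6 := Multiset.card_nsmul_le_sum h5
      rw [Multiset.card_map, smul_eq_mul, mul_one] at h6
      exact h6
    exact (Multiset.count_le_card p l).trans h4
  · rw [Multiset.count_eq_zero_of_notMem hp]
    exact Nat.zero_le _

end Pool.Agent.Lib.H84I
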