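import Pool.Agent.Lib.H84I.PFProd
import Pool.Agent.Lib.H84I.PFPart
import Pool.Agent.Lib.Primc.Zero

/-! # The product formula as an identity of formal power series -/

namespace Pool.Agent.Lib.H84I

open Finset PowerSeries
open scoped PowerSeries.WithPiTopology

theorem pf_exp_lt (a b : ℕ) (ha : 1 ≤ a) (hb : 1 ≤ b) (j : ℕ) : j < a + b * j := by
  have := Nat.mul_le_mul_right j hb
  omega

theorem pf_poch_multipliable (a b : ℕ) (ha : 1 ≤ a) (hb : 1 ≤ b) :
    Multipliable fun j : ℕ => (1 - X ^ (a + b * j) : PowerSeries ℤ) :=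
  pf_multipliable (fun j => a + b * j) (pf_exp_lt a b ha hb)

theorem pf_poch_rep (a b : ℕ) (ha : 1 ≤ a) (hb : 1 ≤ b) :
    PFRep (pfPoch a b) (fun q => ∏' j : ℕ, (1 - q ^ (a + b * j))) :=
  pfrep_tprod (fun j => a + b * j) (pf_exp_lt a b ha hb)

theorem pf_poch_constantCoeff (a b : ℕ) (ha : 1 ≤ a) (hb : 1 ≤ b) :
    constantCoeff (pfPoch a b) = 1 := by
  rw [← PowerSeries.coeff_zero_eq_constantCoeff_apply]
  unfold pfPoch
  rw [pf_coeff_tprod (fun j => a + b * j) (pf_exp_lt a b ha hb) 0]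
  simp

theorem pf_theta_rep (a M : ℕ) (ha : 1 ≤ a) (haM : a < M) :
    PFRep (pfTheta a M) (fun q => ∏' r : ℕ, ((1 - q ^ (a + M * r)) * (1 - q ^ (M - a + M * r)))) := by
  have h1 := pfrep_mul (pf_poch_rep a M ha (by omega)) (pf_poch_rep (M - a) M (by omega) (by omega))
  intro q hq
  have h2 := h1 q hq
  have h3 : (∏' r : ℕ, ((1 - q ^ (a + M * r)) * (1 - q ^ (M - a + M * r)))) =
      (∏' j : ℕ, (1 - q ^ (a + M * j))) * ∏' j : ℕ, (1 - q ^ (M - a + M * j)) :=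
    Multipliable.tprod_mul
      (pf_multipliable_complex (fun j => a + M * j) (pf_exp_lt a M ha (by omega)) q hq)
      (pf_multipliable_complex (fun j => M - a + M * j)
        (pf_exp_lt (M - a) M (by omega) (by omega)) q hq)
  refine ⟨h2.1, ?_⟩
  change HasSum _ (∏' r : ℕ, ((1 - q ^ (a + M * r)) * (1 - q ^ (M - a + M * r))))
  rw [h3]
  exact h2.2

theorem pf_lam_le (n : ℕ) (k : ℕ → ℕ) (i : ℕ) : pfLam n k i ≤ ∑ t ∈ Finset.range (n + 1), k t := by
  unfold pfLam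
  apply Finset.sum_le_sum_of_subset
  intro x hx
  rw [Finset.mem_Icc] at hx
  rw [Finset.mem_range]
  omega

/-- the value of the product side at `q` -/
noncomputable def pfV (n : ℕ) (k : ℕ → ℕ) (q : ℂ) : ℂ :=
  ∏ i ∈ Finset.Icc 1 n, ∏ j ∈ Finset.Ioc i n,
    ((∏' r : ℕ, ((1 - q ^ (pfLam n k i - pfLam n k j + (j - i) + pfMod n k * r))
        * (1 - q ^ (pfMod n k - (pfLam n k i - pfLam n k j + (j - i)) + pfMod n k * r))))
      * (∏' r : ℕ, ((1 - q ^ (pfLam n k i + pfLam n k j + (2 * n + 1 - (i + j)) + pfMod n k * r))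
        * (1 - q ^ (pfMod n k - (pfLam n k i + pfLam n k j + (2 * n + 1 - (i + j)))
          + pfMod n k * r)))))

theorem pf_gen_value (n : ℕ) (hn : 1 ≤ n) (k : ℕ → ℕ) (q : ℂ) (hq : ‖q‖ < 1) :
    HasSum (fun N : ℕ => ((coeff N (pfGen n k) : ℤ) : ℂ) * q ^ N)
      ((∏' j : ℕ, (1 - q ^ (pfMod n k * (j + 1)))) ^ n
        / ((∏' j : ℕ, (1 - q ^ (2 * (j + 1)))) * (∏' j : ℕ, (1 - q ^ (j + 1))) ^ (n - 1))
        * pfV n k q) := by
  have h1 := Pool.Agent.Lib.Primc.final n hn k q hq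
  rw [← Pool.Agent.Lib.Primc.rhs_eq n k q] at h1
  have h2 : (fun N : ℕ => ((coeff N (pfGen n k) : ℤ) : ℂ) * q ^ N) =
      fun N : ℕ => (((Pool.Agent.Lib.Primc.arrays n k N).ncard : ℕ) : ℂ) * q ^ N := by
    funext N
    unfold pfGen
    rw [PowerSeries.coeff_mk, pf_ncard n k N]
    push_cast
    rfl
  rw [h2]
  exact h1

theorem pf_gen_rep (n : ℕ) (hn : 1 ≤ n) (k : ℕ → ℕ) :
    PFRep (pfGen n k) (fun q => (∏' j : ℕ, (1 - q ^ (pfMod n k * (j + 1)))) ^ n
        / ((∏' j : ℕ, (1 - q ^ (2 * (j + 1)))) * (∏' j : ℕ, (1 - q ^ (j + 1))) ^ (n - 1))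
        * pfV n k q) := by
  intro q hq
  have h1 := pf_gen_value n hn k q hq
  exact ⟨h1.summable.norm, h1⟩

/-- the product formula -/
theorem pf_main (n : ℕ) (hn : 1 ≤ n) (k : ℕ → ℕ) :
    pfGen n k * (pfPoch 1 1 ^ (n - 1) * pfPoch 2 2) =
      pfPoch (pfMod n k) (pfMod n k) ^ n *
        ∏ i ∈ Finset.Icc 1 n, ∏ j ∈ Finset.Ioc i n,
          (pfTheta (pfLam n k i - pfLam n k j + (j - i)) (pfMod n k) *
            pfTheta (pfLam n k i + pfLam n k j + (2 * n + 1 - (i + j))) (pfMod n k)) := by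
  have hMpos : 1 ≤ pfMod n k := by unfold pfMod; omega
  have hL := pfrep_mul (pf_gen_rep n hn k)
    (pfrep_mul (pfrep_pow (pf_poch_rep 1 1 le_rfl le_rfl) (n - 1))
      (pf_poch_rep 2 2 (by norm_num) (by norm_num)))
  have hprod : PFRep (∏ i ∈ Finset.Icc 1 n, ∏ j ∈ Finset.Ioc i n,
          (pfTheta (pfLam n k i - pfLam n k j + (j - i)) (pfMod n k) *
            pfTheta (pfLam n k i + pfLam n k j + (2 * n + 1 - (i + j))) (pfMod n k)))
        (fun q => pfV n k q) := by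
    unfold pfV
    apply pfrep_prod (Finset.Icc 1 n) _ (fun i q => ∏ j ∈ Finset.Ioc i n,
      ((∏' r : ℕ, ((1 - q ^ (pfLam n k i - pfLam n k j + (j - i) + pfMod n k * r))
        * (1 - q ^ (pfMod n k - (pfLam n k i - pfLam n k j + (j - i)) + pfMod n k * r))))
      * (∏' r : ℕ, ((1 - q ^ (pfLam n k i + pfLam n k j + (2 * n + 1 - (i + j)) + pfMod n k * r))
        * (1 - q ^ (pfMod n k - (pfLam n k i + pfLam n k j + (2 * n + 1 - (i + j)))
          + pfMod n k * r))))))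
    intro i hi
    apply pfrep_prod (Finset.Ioc i n) _ (fun j q =>
      ((∏' r : ℕ, ((1 - q ^ (pfLam n k i - pfLam n k j + (j - i) + pfMod n k * r))
        * (1 - q ^ (pfMod n k - (pfLam n k i - pfLam n k j + (j - i)) + pfMod n k * r))))
      * (∏' r : ℕ, ((1 - q ^ (pfLam n k i + pfLam n k j + (2 * n + 1 - (i + j)) + pfMod n k * r))
        * (1 - q ^ (pfMod n k - (pfLam n k i + pfLam n k j + (2 * n + 1 - (i + j)))
          + pfMod n k * r))))))
    intro j hj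
    rw [Finset.mem_Icc] at hi
    rw [Finset.mem_Ioc] at hj
    have h1 := pf_lam_le n k i
    have h2 := pf_lam_le n k j
    apply pfrep_mul
    · apply pf_theta_rep
      · omega
      · unfold pfMod; omega
    · apply pf_theta_rep
      · omega
      · unfold pfMod; omega
  have hR := pfrep_mul (pfrep_pow (pf_poch_rep (pfMod n k) (pfMod n k) hMpos hMpos) n) hprod
  apply pfrep_unique hL hR
  intro q hq
  have e1 : (∏' j : ℕ, (1 - q ^ (pfMod n k + pfMod n k * j)))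
      = ∏' j : ℕ, (1 - q ^ (pfMod n k * (j + 1))) := by
    apply tprod_congr
    intro j
    rw [mul_add, mul_one, add_comm]
  have e2 : (∏' j : ℕ, (1 - q ^ (2 + 2 * j))) = ∏' j : ℕ, (1 - q ^ (2 * (j + 1))) := by
    apply tprod_congr
    intro j
    rw [mul_add, mul_one, add_comm]
  have e3 : (∏' j : ℕ, (1 - q ^ (1 + 1 * j))) = ∏' j : ℕ, (1 - q ^ (j + 1)) := by
    apply tprod_congr
    intro j
    rw [one_mul, add_comm]
  have n2 : (∏' j : ℕ, (1 - q ^ (2 + 2 * j))) ≠ 0 :=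
    Pool.Agent.Lib.Primc.ph_ne_zero hq (M := 2) (by norm_num) (r := 2) (by norm_num)
  have n1 : (∏' j : ℕ, (1 - q ^ (1 + 1 * j))) ≠ 0 :=
    Pool.Agent.Lib.Primc.ph_ne_zero hq (M := 1) (by norm_num) (r := 1) (by norm_num)
  rw [e2] at n2
  rw [e3] at n1
  simp only [e1, e2, e3]
  have n3 := pow_ne_zero (n - 1) n1
  field_simp

theorem pf_unit (n : ℕ) : IsUnit (pfPoch 1 1 ^ (n - 1) * pfPoch 2 2) := by
  rw [PowerSeries.isUnit_iff_constantCoeff, map_mul, map_pow,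
    pf_poch_constantCoeff 1 1 le_rfl le_rfl, pf_poch_constantCoeff 2 2 (by norm_num) (by norm_num)]
  simp

end Pool.Agent.Lib.H84I
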