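import Pool.Agent.Lib.H84I.PFRep

/-! # Infinite products of the factors `1 - X ^ (e j)` with `j < e j` -/

namespace Pool.Agent.Lib.H84I

open Finset PowerSeries Filter Topology
open scoped PowerSeries.WithPiTopology

theorem pf_multipliable (e : ℕ → ℕ) (he : ∀ j, j < e j) :
    Multipliable (fun j : ℕ => (1 - X ^ (e j) : PowerSeries ℤ)) := by
  simp_rw [sub_eq_add_neg]
  apply PowerSeries.WithPiTopology.multipliable_one_add_of_tendsto_order_atTop_nhds_top
  refine ENat.tendsto_nhds_top_iff_natCast_lt.mpr (fun n ↦ Filter.eventually_atTop.mpr ⟨n, ?_⟩)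
  intro m hm
  rw [order_neg, order_X_pow]
  have := he m
  norm_cast
  omega

theorem pf_stable (e : ℕ → ℕ) (he : ∀ j, j < e j) (N L : ℕ) (hL : N ≤ L) :
    coeff N (∏ j ∈ range L, (1 - X ^ (e j) : PowerSeries ℤ)) =
      coeff N (∏ j ∈ range N, (1 - X ^ (e j) : PowerSeries ℤ)) := by
  induction L, hL using Nat.le_induction with
  | base => rfl
  | succ L hL ih =>
    have h1 := he L
    rw [Finset.prod_range_succ, mul_sub, mul_one, map_sub, ih, PowerSeries.coeff_mul_X_pow',
      if_neg (by omega), sub_zero]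

theorem pf_coeff_tprod (e : ℕ → ℕ) (he : ∀ j, j < e j) (N : ℕ) :
    coeff N (∏' j : ℕ, (1 - X ^ (e j) : PowerSeries ℤ)) =
      coeff N (∏ j ∈ range N, (1 - X ^ (e j) : PowerSeries ℤ)) := by
  have h1 := (pf_multipliable e he).hasProd.tendsto_prod_nat
  have h2 := ((PowerSeries.WithPiTopology.continuous_coeff ℤ N).tendsto _).comp h1
  have h3 : Tendsto ((fun f : PowerSeries ℤ => coeff N f) ∘
      fun L : ℕ => ∏ j ∈ range L, (1 - X ^ (e j) : PowerSeries ℤ)) atTop
      (𝓝 (coeff N (∏ j ∈ range N, (1 - X ^ (e j) : PowerSeries ℤ)))) := by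
    apply tendsto_const_nhds.congr'
    filter_upwards [Filter.eventually_ge_atTop N] with L hL
    exact (pf_stable e he N L hL).symm
  exact tendsto_nhds_unique h2 h3

theorem pf_coeff_bound (e : ℕ → ℕ) (r : ℝ) (hr0 : 0 ≤ r) (L : ℕ) : ∀ T : ℕ,
    ∑ N ∈ range T, |((coeff N (∏ j ∈ range L, (1 - X ^ (e j) : PowerSeries ℤ)) : ℤ) : ℝ)| * r ^ N
      ≤ ∏ j ∈ range L, (1 + r ^ (e j)) := by
  induction L with
  | zero =>
    intro T
    simp only [Finset.range_zero, Finset.prod_empty]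
    have h1 : ∀ N ∈ range T, |((coeff N (1 : PowerSeries ℤ) : ℤ) : ℝ)| * r ^ N
        = if N = 0 then 1 else 0 := by
      intro N _
      rw [PowerSeries.coeff_one]
      split_ifs with h
      · rw [h]; simp
      · simp
    rw [Finset.sum_congr rfl h1, Finset.sum_ite_eq']
    split_ifs <;> norm_num
  | succ L ih =>
    intro T
    set g : PowerSeries ℤ := ∏ j ∈ range L, (1 - X ^ (e j) : PowerSeries ℤ) with hg
    have hc : ∀ N : ℕ, coeff N (∏ j ∈ range (L + 1), (1 - X ^ (e j) : PowerSeries ℤ))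
        = coeff N g - (if e L ≤ N then coeff (N - e L) g else 0) := by
      intro N
      rw [Finset.prod_range_succ, ← hg, mul_sub, mul_one, map_sub, PowerSeries.coeff_mul_X_pow']
    have h1 : ∑ N ∈ range T, |((coeff N (∏ j ∈ range (L + 1), (1 - X ^ (e j) : PowerSeries ℤ)) :
        ℤ) : ℝ)| * r ^ N ≤ ∑ N ∈ range T, |((coeff N g : ℤ) : ℝ)| * r ^ N +
        ∑ N ∈ range T, (if e L ≤ N then |((coeff (N - e L) g : ℤ) : ℝ)| * r ^ N else 0) := by
      rw [← Finset.sum_add_distrib]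
      apply Finset.sum_le_sum
      intro N _
      rw [hc N]
      have hr : 0 ≤ r ^ N := pow_nonneg hr0 N
      split_ifs with h
      · rw [← add_mul]
        apply mul_le_mul_of_nonneg_right _ hr
        push_cast
        exact abs_sub _ _
      · rw [sub_zero, add_zero]
    have h2 : ∑ N ∈ range T, (if e L ≤ N then |((coeff (N - e L) g : ℤ) : ℝ)| * r ^ N else 0) ≤
        r ^ (e L) * ∏ j ∈ range L, (1 + r ^ (e j)) := by
      rcases le_total T (e L) with hT | hT
      · rw [Finset.sum_eq_zero]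
        · apply mul_nonneg (pow_nonneg hr0 _)
          apply Finset.prod_nonneg
          intro j _
          have := pow_nonneg hr0 (e j)
          linarith
        · intro N hN
          rw [Finset.mem_range] at hN
          exact if_neg (by omega)
      · obtain ⟨T', rfl⟩ := Nat.exists_eq_add_of_le hT
        rw [Finset.sum_range_add, Finset.sum_eq_zero, zero_add]
        · have h3 : ∀ N ∈ range T', (if e L ≤ e L + N then
              |((coeff (e L + N - e L) g : ℤ) : ℝ)| * r ^ (e L + N) else 0)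
              = r ^ (e L) * (|((coeff N g : ℤ) : ℝ)| * r ^ N) := by
            intro N _
            rw [if_pos (by omega), Nat.add_sub_cancel_left, pow_add]
            ring
          rw [Finset.sum_congr rfl h3, ← Finset.mul_sum]
          exact mul_le_mul_of_nonneg_left (ih T') (pow_nonneg hr0 _)
        · intro N hN
          rw [Finset.mem_range] at hN
          exact if_neg (by omega)
    have h4 := ih T
    have h5 : ∏ j ∈ range (L + 1), (1 + r ^ (e j))
        = (∏ j ∈ range L, (1 + r ^ (e j))) * (1 + r ^ (e L)) := Finset.prod_range_succ _ _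
    rw [h5]
    linarith [h1, h2, h4]

theorem pf_prod_bound (e : ℕ → ℕ) (he : ∀ j, j < e j) (s : ℝ) (hs0 : 0 ≤ s) (hs1 : s < 1)
    (L : ℕ) : ∏ j ∈ range L, (1 + s ^ (e j)) ≤ Real.exp (1 - s)⁻¹ := by
  have h1 : ∏ j ∈ range L, (1 + s ^ (e j)) ≤ Real.exp (∑ j ∈ range L, s ^ (e j)) :=
    Real.prod_one_add_le_exp_sum _ (fun j => pow_nonneg hs0 _)
  refine h1.trans (Real.exp_le_exp.mpr ?_)
  calc ∑ j ∈ range L, s ^ (e j) ≤ ∑ j ∈ range L, s ^ j := by
        apply Finset.sum_le_sum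
        intro j _
        exact pow_le_pow_of_le_one hs0 hs1.le (he j).le
    _ ≤ ∑' j : ℕ, s ^ j := by
        apply (summable_geometric_of_lt_one hs0 hs1).sum_le_tsum
        intro j _
        exact pow_nonneg hs0 j
    _ = (1 - s)⁻¹ := tsum_geometric_of_lt_one hs0 hs1

theorem pf_coeff_le (e : ℕ → ℕ) (he : ∀ j, j < e j) (s : ℝ) (hs0 : 0 ≤ s) (hs1 : s < 1)
    (L N : ℕ) :
    |((coeff N (∏ j ∈ range L, (1 - X ^ (e j) : PowerSeries ℤ)) : ℤ) : ℝ)| * s ^ N
      ≤ Real.exp (1 - s)⁻¹ := by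
  refine le_trans ?_ ((pf_coeff_bound e s hs0 L (N + 1)).trans (pf_prod_bound e he s hs0 hs1 L))
  apply Finset.single_le_sum (f := fun N : ℕ =>
    |((coeff N (∏ j ∈ range L, (1 - X ^ (e j) : PowerSeries ℤ)) : ℤ) : ℝ)| * s ^ N)
  · intro i _
    exact mul_nonneg (abs_nonneg _) (pow_nonneg hs0 _)
  · exact Finset.mem_range.mpr (Nat.lt_succ_self N)

theorem pf_multipliable_complex (e : ℕ → ℕ) (he : ∀ j, j < e j) (q : ℂ) (hq : ‖q‖ < 1) :
    Multipliable (fun j : ℕ => (1 - q ^ (e j) : ℂ)) := by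
  simp_rw [sub_eq_add_neg]
  apply multipliable_one_add_of_summable (f := fun j : ℕ => -q ^ (e j))
  apply Summable.of_nonneg_of_le (fun j => norm_nonneg _) (g := fun j => ‖-q ^ (e j)‖)
    (f := fun j : ℕ => ‖q‖ ^ j)
  · intro j
    rw [norm_neg, norm_pow]
    exact pow_le_pow_of_le_one (norm_nonneg _) hq.le (he j).le
  · exact summable_geometric_of_lt_one (norm_nonneg _) hq

/-- the infinite product of the factors `1 - X ^ (e j)` has the expected values -/
theorem pfrep_tprod (e : ℕ → ℕ) (he : ∀ j, j < e j) :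
    PFRep (∏' j : ℕ, (1 - X ^ (e j) : PowerSeries ℤ)) (fun q => ∏' j : ℕ, (1 - q ^ (e j))) := by
  intro q hq
  obtain ⟨s, hs1, hs2⟩ := exists_between hq
  have hs0 : 0 < s := lt_of_le_of_lt (norm_nonneg q) hs1
  set C : ℝ := Real.exp (1 - s)⁻¹ with hC
  have hC0 : 0 < C := Real.exp_pos _
  set P : ℕ → PowerSeries ℤ := fun L => ∏ j ∈ range L, (1 - X ^ (e j) : PowerSeries ℤ) with hP
  have hb : ∀ L N : ℕ, ‖((coeff N (P L) : ℤ) : ℂ) * q ^ N‖ ≤ C * (‖q‖ / s) ^ N := by
    intro L N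
    have h1 := pf_coeff_le e he s hs0.le hs2 L N
    rw [norm_mul, norm_pow, div_pow]
    have h2 : ‖((coeff N (P L) : ℤ) : ℂ)‖ = |((coeff N (P L) : ℤ) : ℝ)| := by
      rw [Complex.norm_intCast]
    rw [h2]
    have h3 : 0 < s ^ N := pow_pos hs0 N
    have h4 : |((coeff N (P L) : ℤ) : ℝ)| ≤ C / s ^ N := by
      rw [le_div_iff₀ h3]
      exact h1
    calc |((coeff N (P L) : ℤ) : ℝ)| * ‖q‖ ^ N ≤ (C / s ^ N) * ‖q‖ ^ N :=
          mul_le_mul_of_nonneg_right h4 (pow_nonneg (norm_nonneg _) _)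
      _ = C * (‖q‖ ^ N / s ^ N) := by ring
  have hgeo : Summable (fun N : ℕ => C * (‖q‖ / s) ^ N) := by
    apply Summable.mul_left
    apply summable_geometric_of_lt_one
    · exact div_nonneg (norm_nonneg _) hs0.le
    · rw [div_lt_one hs0]; exact hs1
  have hinf : ∀ N : ℕ, coeff N (∏' j : ℕ, (1 - X ^ (e j) : PowerSeries ℤ)) = coeff N (P N) :=
    fun N => pf_coeff_tprod e he N
  have hsum : Summable (fun N : ℕ =>
      ‖((coeff N (∏' j : ℕ, (1 - X ^ (e j) : PowerSeries ℤ)) : ℤ) : ℂ) * q ^ N‖) := by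
    apply Summable.of_nonneg_of_le (fun _ => norm_nonneg _) _ hgeo
    intro N
    rw [hinf N]
    exact hb N N
  refine ⟨hsum, ?_⟩
  have hlim : Tendsto (fun L : ℕ => ∑' N : ℕ, ((coeff N (P L) : ℤ) : ℂ) * q ^ N) atTop
      (𝓝 (∑' N : ℕ, ((coeff N (∏' j : ℕ, (1 - X ^ (e j) : PowerSeries ℤ)) : ℤ) : ℂ) * q ^ N)) := by
    apply tendsto_tsum_of_dominated_convergence hgeo
    · intro N
      apply tendsto_const_nhds.congr'
      filter_upwards [Filter.eventually_ge_atTop N] with L hL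
      rw [hinf N]
      have := pf_stable e he N L hL
      simp only [hP]
      rw [this]
    · exact Filter.Eventually.of_forall (fun L N => hb L N)
  have hfin : ∀ L : ℕ, ∑' N : ℕ, ((coeff N (P L) : ℤ) : ℂ) * q ^ N
      = ∏ j ∈ range L, (1 - q ^ (e j)) := by
    intro L
    have h1 := (pfrep_prod (range L) (fun j => (1 - X ^ (e j) : PowerSeries ℤ))
      (fun j q => 1 - q ^ (e j)) (fun j _ => pfrep_factor (e j) (by have := he j; omega)) q hq).2
    exact h1.tsum_eq
  have hlim2 : Tendsto (fun L : ℕ => ∑' N : ℕ, ((coeff N (P L) : ℤ) : ℂ) * q ^ N) atTop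
      (𝓝 (∏' j : ℕ, (1 - q ^ (e j)))) := by
    simp only [hfin]
    exact (pf_multipliable_complex e he q hq).hasProd.tendsto_prod_nat
  have h5 := tendsto_nhds_unique hlim hlim2
  change HasSum _ (∏' j : ℕ, (1 - q ^ (e j)))
  rw [← h5]
  exact hsum.of_norm.hasSum

end Pool.Agent.Lib.H84I
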