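import Mathlib

/-! # Power series over the integers against their values in the open unit disc

`PFRep f F` says that the integral power series `f` converges absolutely to `F q` at every complex
`q` of modulus less than one. We show that this is stable under products, that it determines `f`,
and that it holds for the infinite products of the factors `1 - X ^ (e j)`. -/

namespace Pool.Agent.Lib.H84I

open Finset PowerSeries Filter Topology

/-- the series `f` converges absolutely to `F` on the open unit disc -/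
def PFRep (f : PowerSeries ℤ) (F : ℂ → ℂ) : Prop :=
  ∀ q : ℂ, ‖q‖ < 1 → Summable (fun N : ℕ => ‖((coeff N f : ℤ) : ℂ) * q ^ N‖) ∧
    HasSum (fun N : ℕ => ((coeff N f : ℤ) : ℂ) * q ^ N) (F q)

theorem pfrep_mul {f g : PowerSeries ℤ} {F G : ℂ → ℂ} (hf : PFRep f F) (hg : PFRep g G) :
    PFRep (f * g) (fun q => F q * G q) := by
  intro q hq
  obtain ⟨sf, hf'⟩ := hf q hq
  obtain ⟨sg, hg'⟩ := hg q hq
  have key : ∀ N : ℕ, ∑ kl ∈ antidiagonal N, (((coeff kl.1 f : ℤ) : ℂ) * q ^ kl.1) *
      (((coeff kl.2 g : ℤ) : ℂ) * q ^ kl.2) = ((coeff N (f * g) : ℤ) : ℂ) * q ^ N := by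
    intro N
    rw [PowerSeries.coeff_mul]
    push_cast
    rw [Finset.sum_mul]
    apply Finset.sum_congr rfl
    intro kl hkl
    rw [← Finset.HasAntidiagonal.mem_antidiagonal.mp hkl, pow_add]
    ring
  have h1 := summable_norm_sum_mul_antidiagonal_of_summable_norm sf sg
  have h2 := tsum_mul_tsum_eq_tsum_sum_antidiagonal_of_summable_norm sf sg
  simp only [key] at h1 h2
  refine ⟨h1, ?_⟩
  have h3 : HasSum (fun N : ℕ => ((coeff N (f * g) : ℤ) : ℂ) * q ^ N)
      (∑' N : ℕ, ((coeff N (f * g) : ℤ) : ℂ) * q ^ N) := h1.of_norm.hasSum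
  rw [← h2, hf'.tsum_eq, hg'.tsum_eq] at h3
  exact h3

theorem pfrep_one : PFRep 1 (fun _ => 1) := by
  intro q hq
  have h0 : ∀ N : ℕ, N ≠ 0 → ((coeff N (1 : PowerSeries ℤ) : ℤ) : ℂ) * q ^ N = 0 := by
    intro N hN
    rw [PowerSeries.coeff_one, if_neg hN]; simp
  have h1 : ((coeff 0 (1 : PowerSeries ℤ) : ℤ) : ℂ) * q ^ 0 = 1 := by simp
  constructor
  · apply summable_of_ne_finset_zero (s := {0})
    intro N hN
    rw [h0 N (by simpa using hN), norm_zero]
  · have h2 := hasSum_single (f := fun N : ℕ => ((coeff N (1 : PowerSeries ℤ) : ℤ) : ℂ) * q ^ N) 0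
      h0
    rw [h1] at h2
    exact h2

theorem pfrep_factor (e : ℕ) (he : 0 < e) :
    PFRep (1 - X ^ e) (fun q => 1 - q ^ e) := by
  intro q hq
  have hc : ∀ N : ℕ, (coeff N (1 - X ^ e : PowerSeries ℤ) : ℤ)
      = (if N = 0 then 1 else 0) - (if N = e then 1 else 0) := by
    intro N
    rw [map_sub, PowerSeries.coeff_one, PowerSeries.coeff_X_pow]
  have h0 : ∀ N : ℕ, N ∉ ({0, e} : Finset ℕ) →
      ((coeff N (1 - X ^ e : PowerSeries ℤ) : ℤ) : ℂ) * q ^ N = 0 := by
    intro N hN
    rw [Finset.mem_insert, Finset.mem_singleton, not_or] at hN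
    rw [hc, if_neg hN.1, if_neg hN.2]; simp
  constructor
  · apply summable_of_ne_finset_zero (s := {0, e})
    intro N hN
    rw [h0 N hN, norm_zero]
  · have h2 : HasSum (fun N : ℕ => ((coeff N (1 - X ^ e : PowerSeries ℤ) : ℤ) : ℂ) * q ^ N)
        (∑ N ∈ ({0, e} : Finset ℕ), ((coeff N (1 - X ^ e : PowerSeries ℤ) : ℤ) : ℂ) * q ^ N) :=
      hasSum_sum_of_ne_finset_zero h0
    rw [Finset.sum_pair (by omega)] at h2
    have h3 : (((coeff 0 (1 - X ^ e : PowerSeries ℤ) : ℤ) : ℂ) * q ^ 0 +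
        ((coeff e (1 - X ^ e : PowerSeries ℤ) : ℤ) : ℂ) * q ^ e) = 1 - q ^ e := by
      rw [hc, hc, if_pos rfl, if_neg (by omega : ¬ (0 = e)), if_neg (by omega : ¬ (e = 0)),
        if_pos rfl]
      push_cast
      ring
    rw [h3] at h2
    exact h2

theorem pfrep_prod {ι : Type*} (s : Finset ι) (f : ι → PowerSeries ℤ) (F : ι → ℂ → ℂ)
    (h : ∀ i ∈ s, PFRep (f i) (F i)) : PFRep (∏ i ∈ s, f i) (fun q => ∏ i ∈ s, F i q) := by
  classical
  revert h
  refine Finset.induction_on s ?_ ?_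
  · intro _
    simpa using pfrep_one
  · intro a s ha ih h
    have h1 := pfrep_mul (h a (Finset.mem_insert_self a s))
      (ih (fun i hi => h i (Finset.mem_insert_of_mem hi)))
    rw [Finset.prod_insert ha]
    intro q hq
    have h2 := h1 q hq
    simp only [Finset.prod_insert ha]
    exact h2

theorem pfrep_pow {f : PowerSeries ℤ} {F : ℂ → ℂ} (hf : PFRep f F) (m : ℕ) :
    PFRep (f ^ m) (fun q => F q ^ m) := by
  have h := pfrep_prod (Finset.range m) (fun _ => f) (fun _ => F) (fun _ _ => hf)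
  simp only [Finset.prod_const, Finset.card_range] at h
  exact h

/-- the values determine the series -/
theorem pfrep_unique {f g : PowerSeries ℤ} {F G : ℂ → ℂ} (hf : PFRep f F) (hg : PFRep g G)
    (h : ∀ q : ℂ, ‖q‖ < 1 → F q = G q) : f = g := by
  have hat : ∀ (u : PowerSeries ℤ), PFRep u F →
      HasFPowerSeriesAt F (FormalMultilinearSeries.ofScalars ℂ
        (fun N : ℕ => ((coeff N u : ℤ) : ℂ))) 0 := by
    intro u hu
    rw [hasFPowerSeriesAt_iff]
    have hb : ∀ᶠ z : ℂ in 𝓝 0, ‖z‖ < 1 := by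
      have := Metric.ball_mem_nhds (0 : ℂ) one_pos
      filter_upwards [this] with z hz
      simpa using hz
    filter_upwards [hb] with z hz
    rw [zero_add]
    have h1 := (hu z hz).2
    have h2 : (fun n : ℕ => z ^ n • (FormalMultilinearSeries.ofScalars ℂ
        (fun N : ℕ => ((coeff N u : ℤ) : ℂ))).coeff n) =
        fun N : ℕ => ((coeff N u : ℤ) : ℂ) * z ^ N := by
      funext n
      rw [FormalMultilinearSeries.coeff_ofScalars, smul_eq_mul, mul_comm]
    rw [h2]
    exact h1
  have hg' : PFRep g F := by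
    intro q hq
    rw [h q hq]
    exact hg q hq
  have h1 := (hat f hf).eq_formalMultilinearSeries (hat g hg')
  ext N
  have h2 : (FormalMultilinearSeries.ofScalars ℂ
        (fun N : ℕ => ((coeff N f : ℤ) : ℂ))).coeff N = (FormalMultilinearSeries.ofScalars ℂ
        (fun N : ℕ => ((coeff N g : ℤ) : ℂ))).coeff N := by rw [h1]
  rw [FormalMultilinearSeries.coeff_ofScalars, FormalMultilinearSeries.coeff_ofScalars] at h2
  exact_mod_cast h2

end Pool.Agent.Lib.H84I
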